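import Pool.Agent.H7.KC.Stmts

/-!
# Board kc15, row NBJ: what is owed is less than the loss
-/

set_option autoImplicit false

open Finset

namespace Pool.KC7

open Pool.Agent.H23.KT Pool.Agent.H46.KW Pool.KQ Pool.GT7 Pool.GU7 Pool.HZ7 Pool.IA7

/-- The numerical part, `A = a ^ b`, `f = pt`, `c = c1`, `d = b - 1`. -/
theorem NBJ_num (b d c w ε A N S0 S1 T κ lo hi f s : ℝ) (hb : 3 ≤ b) (hd : 1 ≤ d)
    (hc : 1 ≤ c) (hw : 0 ≤ w) (hwb : w + 2 ≤ b) (hA : 0 < A)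
    (hε : ε = 1 / (16 * b ^ 3 * ((w + 3) * (c + 1))))
    (h1 : (1 - ε) * A ≤ N) (h2 : N ≤ (1 + ε) * A)
    (h3 : S0 ≤ d * ((w + 1) / (w + 2)) * A + ε * A)
    (h6 : κ ≤ S1 + ε * A) (hf0 : 0 < f) (hf1 : f < 1)
    (h7 : (w + 3) * S1 + 1 / (2 * b ^ 2) * lo ≤
      c * N + (w + 2) * (c * (1 - f) * N + f * c * T))
    (h8 : d * hi ≤ S0) (h9 : hi + lo = N) (hs : (w + 2) * s ≤ 1 / (16 * b ^ 3)) :
    (w + 3) * κ - (w + 2) * (c * (1 - f) * A + c * f * T) + (w + 2) * s * A ≤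
      (c - 1 / (32 * b ^ 3)) * A := by
  have hb0 : 0 < b := by linarith
  have hb3 : 0 < b ^ 3 := by positivity
  have hw2 : 0 < w + 2 := by linarith
  have hwc : 0 < (w + 3) * (c + 1) := by positivity
  obtain ⟨q, hq⟩ : ∃ q : ℝ, q = 1 / (16 * b ^ 3) := ⟨_, rfl⟩
  have hq0 : 0 < q := by rw [hq]; positivity
  have hε0 : 0 < ε := by rw [hε]; positivity
  have hεq : ε * ((w + 3) * (c + 1)) = q := by
    rw [hε, hq]
    field_simp
  have hεle : ε ≤ q := by
    rw [← hεq]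
    have : (1 : ℝ) ≤ (w + 3) * (c + 1) := by nlinarith
    nlinarith
  have hqb : q * b ≤ 1 / 4 := by
    have e1 : q * b = 1 / (16 * b ^ 2) := by
      rw [hq]
      field_simp
    rw [e1]
    apply one_div_le_one_div_of_le (by norm_num)
    nlinarith
  have hεb : 2 * ε ≤ 1 / (2 * b) := by
    rw [le_div_iff₀ (by positivity)]
    nlinarith
  -- lower bound of `lo`
  have r1 : d * hi ≤ d * (((w + 1) / (w + 2) + ε) * A) := by
    have q1 : ε * A ≤ d * (ε * A) := by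
      have : 0 < ε * A := by positivity
      nlinarith
    have q2 : d * (((w + 1) / (w + 2) + ε) * A) = d * ((w + 1) / (w + 2)) * A + d * (ε * A) := by
      ring
    linarith
  have r2 : hi ≤ ((w + 1) / (w + 2) + ε) * A := le_of_mul_le_mul_left r1 (by linarith)
  have r3 : 1 / b ≤ 1 - (w + 1) / (w + 2) := by
    have e1 : 1 - (w + 1) / (w + 2) = 1 / (w + 2) := by
      field_simp
      ring
    rw [e1]
    exact one_div_le_one_div_of_le hw2 hwb
  have r4 : (1 / (2 * b)) * A ≤ lo := by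
    have e1 : lo ≥ (1 - (w + 1) / (w + 2) - 2 * ε) * A := by
      have : (1 - (w + 1) / (w + 2) - 2 * ε) * A =
        (1 - ε) * A - ((w + 1) / (w + 2) + ε) * A := by ring
      linarith
    have e2 : 1 / (2 * b) ≤ 1 - (w + 1) / (w + 2) - 2 * ε := by
      have : 1 / b = 1 / (2 * b) + 1 / (2 * b) := by
        field_simp
        norm_num
      linarith
    exact (mul_le_mul_of_nonneg_right e2 hA.le).trans e1
  have r5 : 4 * q * A ≤ 1 / (2 * b ^ 2) * lo := by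
    have e1 : 1 / (2 * b ^ 2) * ((1 / (2 * b)) * A) ≤ 1 / (2 * b ^ 2) * lo :=
      mul_le_mul_of_nonneg_left r4 (by positivity)
    have e2 : 1 / (2 * b ^ 2) * ((1 / (2 * b)) * A) = 4 * q * A := by
      rw [hq]
      field_simp
      norm_num
    linarith
  have r6 : c * N ≤ c * A + c * ε * A := by
    have := mul_le_mul_of_nonneg_left h2 (by linarith : (0 : ℝ) ≤ c)
    have e1 : c * ((1 + ε) * A) = c * A + c * ε * A := by ring
    linarith
  have r7 : (w + 2) * (c * (1 - f) * N) ≤ (w + 2) * (c * (1 - f) * A) + (w + 2) * c * ε * A := by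
    have e0 : 0 ≤ (w + 2) * (c * (1 - f)) :=
      mul_nonneg hw2.le (mul_nonneg (by linarith) (by linarith))
    have e1 := mul_le_mul_of_nonneg_left h2 e0
    have e2 : (w + 2) * (c * (1 - f)) * (ε * A) ≤ (w + 2) * c * (ε * A) := by
      apply mul_le_mul_of_nonneg_right _ (by positivity)
      apply mul_le_mul_of_nonneg_left _ hw2.le
      nlinarith
    have e3 : (w + 2) * (c * (1 - f)) * ((1 + ε) * A) =
        (w + 2) * (c * (1 - f) * A) + (w + 2) * (c * (1 - f)) * (ε * A) := by ring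
    have e4 : (w + 2) * (c * (1 - f)) * N = (w + 2) * (c * (1 - f) * N) := by ring
    have e5 : (w + 2) * c * (ε * A) = (w + 2) * c * ε * A := by ring
    linarith
  have r8 : (w + 3) * κ ≤ (w + 3) * S1 + (w + 3) * ε * A := by
    have := mul_le_mul_of_nonneg_left h6 (by linarith : (0 : ℝ) ≤ w + 3)
    have e1 : (w + 3) * (S1 + ε * A) = (w + 3) * S1 + (w + 3) * ε * A := by ring
    linarith
  have r9 : c * ε * A + (w + 2) * c * ε * A + (w + 3) * ε * A = q * A := by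
    rw [← hεq]
    ring
  have r10 : (w + 2) * s * A ≤ q * A := by
    rw [hq]
    exact mul_le_mul_of_nonneg_right hs hA.le
  have r11 : (c - 1 / (32 * b ^ 3)) * A = c * A - q * A / 2 := by
    rw [hq]
    field_simp
    ring
  have hqA : 0 < q * A := mul_pos hq0 hA
  rw [r11]
  have e6 : (w + 2) * (c * (1 - f) * N + f * c * T) =
      (w + 2) * (c * (1 - f) * N) + (w + 2) * (c * f * T) := by ring
  have e7 : (w + 2) * (c * (1 - f) * A + c * f * T) =
      (w + 2) * (c * (1 - f) * A) + (w + 2) * (c * f * T) := by ring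
  rw [e6] at h7
  rw [e7]
  linarith

theorem NBJ_thm (hG : GCJStmt) (hP : PRFStmt) (hC : CCK0Stmt) (hO : GCO0Stmt) : NBJStmt := by
  intro p w r h
  obtain ⟨hz', hf0, hf1, -, -, g4⟩ := hG p w r h
  have hw1 := h.w1
  have hwp := h.wp
  have hrb := hz'.rb
  have h0 : Pr0 p w r := ⟨hwp, by omega, h.rp⟩
  have hp0 : (0 : ℝ) ≤ p := Nat.cast_nonneg p
  have hw0 : (0 : ℝ) ≤ w := Nat.cast_nonneg w
  have hwpR : (w : ℝ) ≤ p := by exact_mod_cast hwp
  have he : 0 < e1 p := by unfold e1; positivity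
  have hc1 : (1 : ℝ) ≤ c1 p w := by
    unfold c1
    have : 0 < (p + 2).choose (w + 1) := Nat.choose_pos (by omega)
    exact_mod_cast this
  obtain ⟨ε, hε⟩ : ∃ ε : ℝ, ε = 1 / (16 * ((p : ℝ) + 3) ^ 3 * (((w : ℝ) + 3) * (c1 p w + 1))) :=
    ⟨_, rfl⟩
  have hε0 : 0 < ε := by
    rw [hε]
    have : 0 < c1 p w + 1 := by linarith
    positivity
  obtain ⟨e₀, he₀, hP1⟩ := hP p ε hε0
  refine ⟨min e₀ (e1 p / 2), lt_min he₀ (by positivity), fun C => ?_⟩
  obtain ⟨a₀, hP2⟩ := hP1 C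
  refine ⟨max a₀ 1, fun a ha V _ G e W P U hStr he0 hee hCB z hz hn hnd => ?_⟩
  have ha0 : a₀ ≤ a := le_trans (le_max_left _ _) ha
  have ha1 : 1 ≤ a := le_trans (le_max_right _ _) ha
  have haR : (0 : ℝ) < a := by exact_mod_cast ha1
  obtain ⟨p1, p2, -, p4, -, p6, -⟩ :=
    hP2 a ha0 G e W P U hStr he0 (hee.trans (min_le_left _ _)) hCB z hz
  obtain ⟨k1, -, -, -⟩ :=
    hC G p w r a e C W P U h0 hStr he0 (hee.trans (min_le_right _ _)) hCB z hz
  obtain ⟨o1, o2, -⟩ := hO p w r h0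
  obtain ⟨X, hX⟩ : ∃ X : Finset V, X = un P := ⟨_, rfl⟩
  rw [← hX] at p1 p2 p4 p6 k1 hn hnd ⊢
  have hA : (0 : ℝ) < (a : ℝ) ^ (p + 3) := by positivity
  have hN : (kc G X (p + 3) : ℝ) = ∑ L ∈ clq G X (p + 3), (1 : ℝ) := by
    rw [sum_const, nsmul_eq_mul, mul_one]
    rfl
  obtain ⟨lo, hlo⟩ : ∃ lo : ℝ, lo = ∑ L ∈ clq G X (p + 3),
    (if (nb G L z).card ≤ p + 1 then (1 : ℝ) else 0) := ⟨_, rfl⟩
  obtain ⟨hi, hhi⟩ : ∃ hi : ℝ, hi = ∑ L ∈ clq G X (p + 3),
    (if (nb G L z).card ≤ p + 1 then (0 : ℝ) else 1) := ⟨_, rfl⟩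
  have h9 : hi + lo = (kc G X (p + 3) : ℝ) := by
    rw [hlo, hhi, hN, ← sum_add_distrib]
    refine sum_congr rfl fun L _ => ?_
    split_ifs <;> norm_num
  have h8 : ((p : ℝ) + 2) * hi ≤ ∑ L ∈ clq G X (p + 3), ((nb G L z).card : ℝ) := by
    rw [hhi, mul_sum]
    refine sum_le_sum fun L hL => ?_
    split_ifs with hB
    · rw [mul_zero]; exact Nat.cast_nonneg _
    · rw [mul_one]
      have : p + 2 ≤ (nb G L z).card := by omega
      exact_mod_cast this
  have h7 : ((w : ℝ) + 3) * (∑ L ∈ clq G X (p + 3), ((nb G L z).card.choose (w + 1) : ℝ)) +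
      1 / (2 * ((p : ℝ) + 3) ^ 2) * lo ≤
      c1 p w * (kc G X (p + 3) : ℝ) + ((w : ℝ) + 2) *
        (c1 p w * (1 - pt p w r) * (kc G X (p + 3) : ℝ) +
          pt p w r * c1 p w * TZ G p r X z) := by
    have e0 : c1 p w * (kc G X (p + 3) : ℝ) + ((w : ℝ) + 2) *
        (c1 p w * (1 - pt p w r) * (kc G X (p + 3) : ℝ) +
          pt p w r * c1 p w * TZ G p r X z) =
        ∑ L ∈ clq G X (p + 3), (c1 p w + ((w : ℝ) + 2) * (c1 p w * (1 - pt p w r) +
          pt p w r * c1 p w * ww p r (nb G L z).card)) := by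
      unfold TZ
      rw [hN]
      simp only [mul_sum, ← sum_add_distrib]
      refine sum_congr rfl fun L _ => ?_
      ring
    rw [e0, hlo, mul_sum, mul_sum, ← sum_add_distrib]
    refine sum_le_sum fun L hL => ?_
    have hB2 := k1 L hL
    split_ifs with hB
    · have := g4 _ hB
      linarith
    · have hB3 : (nb G L z).card = p + 2 := by omega
      have hB4 : (((p + 2).choose (w + 1) : ℕ) : ℝ) = c1 p w := rfl
      rw [hB3, o2, hB4]
      linarith
  have pw1 : (a : ℝ) ^ (p + 3) = (a : ℝ) ^ (p + 2) * a := by rw [← pow_succ]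
  have h3 : ∑ L ∈ clq G X (p + 3), ((nb G L z).card : ℝ) ≤
      ((p : ℝ) + 2) * (((w : ℝ) + 1) / ((w : ℝ) + 2)) * (a : ℝ) ^ (p + 3) +
        ε * (a : ℝ) ^ (p + 3) := by
    refine p4.trans ?_
    have : ((nb G X z).card : ℝ) * (a : ℝ) ^ (p + 2) ≤ mJ p w * a * (a : ℝ) ^ (p + 2) :=
      mul_le_mul_of_nonneg_right hn (by positivity)
    unfold mJ at this
    rw [pw1]
    linarith
  have h6 := p6 (w + 1) (by omega)
  have e7 : p + 3 - (w + 1) = p + 2 - w := by omega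
  rw [e7] at h6
  have hs : ((w : ℝ) + 2) * s3 p ≤ 1 / (16 * ((p : ℝ) + 3) ^ 3) := by
    have t1 : ((w : ℝ) + 2) * s3 p ≤ ((p : ℝ) + 3) * s3 p := by
      apply mul_le_mul_of_nonneg_right (by linarith)
      unfold s3
      positivity
    refine t1.trans ?_
    have t2 : ((p : ℝ) + 3) * s3 p = e1 p / (256 * ((p : ℝ) + 3)) := by
      unfold s3
      field_simp
    rw [t2]
    unfold e1
    apply div_le_self (by positivity)
    linarith
  have key := NBJ_num ((p : ℝ) + 3) ((p : ℝ) + 2) (c1 p w) w ε ((a : ℝ) ^ (p + 3))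
    (kc G X (p + 3)) _ _ (TZ G p r X z)
    ((kc G (nb G X z) (w + 1) : ℝ) * (a : ℝ) ^ (p + 2 - w)) lo hi (pt p w r) (s3 p)
    (by linarith) (by linarith) hc1 hw0 (by linarith) hA hε p1 p2 h3 h6 hf0 hf1 h7 h8 h9 hs
  have hd : (0 : ℝ) < (a : ℝ) ^ (p + 2 - w) := by positivity
  have pw2 : (a : ℝ) ^ (p + 3) = (a : ℝ) ^ (w + 1) * (a : ℝ) ^ (p + 2 - w) := by
    rw [← pow_add]
    congr 1
    omega
  have hndE : ndj G p w r a X z * (a : ℝ) ^ (p + 2 - w) =
      (kc G (nb G X z) (w + 1) : ℝ) * (a : ℝ) ^ (p + 2 - w) -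
        c1 p w * (1 - pt p w r) * (a : ℝ) ^ (p + 3) -
        c1 p w * pt p w r * TZ G p r X z + s3 p * (a : ℝ) ^ (p + 3) := by
    unfold ndj at hnd ⊢
    rw [max_eq_right (le_of_lt ((lt_max_iff.1 hnd).resolve_left (lt_irrefl 0)))]
    unfold Mt
    rw [pw2]
    have z1 : (a : ℝ) ^ (w + 1) ≠ 0 := by positivity
    have z2 : (a : ℝ) ^ (p + 2 - w) ≠ 0 := by positivity
    field_simp
  refine le_of_mul_le_mul_right ?_ hd
  have e8 : (((w : ℝ) + 2) * ndj G p w r a X z + (kc G (nb G X z) (w + 1) : ℝ)) *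
      (a : ℝ) ^ (p + 2 - w) =
      ((w : ℝ) + 3) * ((kc G (nb G X z) (w + 1) : ℝ) * (a : ℝ) ^ (p + 2 - w)) -
        ((w : ℝ) + 2) * (c1 p w * (1 - pt p w r) * (a : ℝ) ^ (p + 3) +
          c1 p w * pt p w r * TZ G p r X z) + ((w : ℝ) + 2) * s3 p * (a : ℝ) ^ (p + 3) := by
    rw [add_mul, mul_assoc, hndE]
    ring
  rw [e8]
  refine key.trans (le_of_eq ?_)
  rw [pw2]
  ring

end Pool.KC7
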